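import Pool.Agent.Helper903.ES.Main
import Pool.Agent.Q84.TC.Weak

/-!
# Ramsey numbers of trees versus odd cycles

For every odd `m ≥ 3`, every `n ≥ m - 1` and every tree `T` on `n` vertices, `R(T, C_m) = 2n - 1`.

Outline. Let the edges of the complete graph on `2n - 1` vertices be coloured red and blue without
a red copy of `T`. By the Erdős–Sós theorem there are more than `(2n - 1)² / 4` blue edges. By the
Erdős–Gallai theorem the longest blue cycle has at least `n + 1` vertices, and a graph with more
than a quarter of the square of its order edges and circumference above half its order has cycles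
of all lengths up to the circumference.
-/

set_option autoImplicit false
open Finset
open scoped Classical

namespace Pool.Agent.Results.MP_0e31aa_co.TreeOddCycle

open Pool.Agent.Q84.TC SimpleGraph

/-- the red graph of the lower bound -/
def two (n N : ℕ) : SimpleGraph (Fin N) where
  Adj i j := i ≠ j ∧ (i.val < n - 1 ↔ j.val < n - 1)
  symm := ⟨fun _ _ h => ⟨h.1.symm, h.2.symm⟩⟩
  loopless := ⟨fun _ h => h.1 rfl⟩

theorem lower {m n N : ℕ} (hm : Odd m) (h3 : 3 ≤ m) (hN : N ≤ 2 * n - 2)
    (T : SimpleGraph (Fin n)) (hT : T.IsTree) :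
    ¬ (T ⊑ two n N) ∧ ¬ (cycleGraph m ⊑ (two n N)ᶜ) := by
  constructor
  · rintro ⟨f⟩
    have hn : 0 < n := by
      rcases Nat.eq_zero_or_pos n with h | h
      · subst h
        exact (hT.connected.nonempty.some).elim0
      · exact h
    have hadj : ∀ a b, T.Adj a b → ((f a).val < n - 1 ↔ (f b).val < n - 1) := by
      intro a b hab
      exact (f.toHom.map_adj hab).2
    have hall : ∀ a b, ((f a).val < n - 1 ↔ (f b).val < n - 1) := by
      intro a b
      obtain ⟨w⟩ := hT.connected.preconnected a b
      induction w with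
      | nil => exact Iff.rfl
      | cons h _ ih => exact (hadj _ _ h).trans ih
    have hinj := f.injective
    by_cases h0 : (f ⟨0, hn⟩).val < n - 1
    · have h1 := Finset.card_le_card_of_injOn (s := (univ : Finset (Fin n))) (t := range (n - 1))
        (fun a => (f a).val) (fun a _ => by
          rw [coe_range, Set.mem_Iio]; exact (hall ⟨0, hn⟩ a).1 h0)
        (fun a _ b _ h => hinj (Fin.ext h))
      rw [card_univ, Fintype.card_fin, card_range] at h1
      omega
    · have h1 := Finset.card_le_card_of_injOn (s := (univ : Finset (Fin n)))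
        (t := Ico (n - 1) N)
        (fun a => (f a).val) (fun a _ => by
          rw [coe_Ico, Set.mem_Ico]
          have := (hall ⟨0, hn⟩ a).not.1 h0
          exact ⟨not_lt.1 this, (f a).isLt⟩)
        (fun a _ b _ h => hinj (Fin.ext h))
      rw [card_univ, Fintype.card_fin, Nat.card_Ico] at h1
      omega
  · rintro ⟨f⟩
    have hcol : (two n N)ᶜ.Colorable 2 := by
      refine ⟨Coloring.mk (fun i => if i.val < n - 1 then 0 else 1) ?_⟩
      intro i j hij
      rw [compl_adj] at hij
      intro hcon
      apply hij.2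
      refine ⟨hij.1, ?_⟩
      by_cases hi : i.val < n - 1 <;> by_cases hj : j.val < n - 1
      · exact iff_of_true hi hj
      · rw [if_pos hi, if_neg hj] at hcon; exact absurd hcon (by decide)
      · rw [if_neg hi, if_pos hj] at hcon; exact absurd hcon (by decide)
      · exact iff_of_false hi hj
    have h1 : (cycleGraph m).Colorable 2 := hcol.of_hom f.toHom
    have h2 := chromaticNumber_cycleGraph_of_odd m (by omega) hm
    have h4 := h1.chromaticNumber_le
    rw [h2] at h4
    exact absurd h4 (by decide)

theorem contained_of_cyc {N m : ℕ} {G : SimpleGraph (Fin N)} (h3 : 3 ≤ m) {p : ℕ → Fin N}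
    (hp : CycF G m p) : cycleGraph m ⊑ G := by
  obtain ⟨k, rfl⟩ : ∃ k, m = k + 2 := ⟨m - 2, by omega⟩
  have hadj : ∀ u v : Fin (k + 2), u - v = 1 → G.Adj (p v) (p u) := by
    intro u v huv
    have hu : u = v + 1 := by rw [← huv]; abel
    subst hu
    rcases Nat.lt_or_ge (v.val + 1) (k + 2) with h | h
    · have : (v + 1).val = v.val + 1 := Fin.val_add_one_of_lt' h
      rw [this]
      exact hp.1.2 _ h
    · have h1 : v.val = k + 2 - 1 := by omega
      have h2 : v = Fin.last (k + 1) := Fin.ext h1
      have h5 : (v + 1).val = 0 := by rw [h2]; simp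
      rw [h5, h1]
      exact hp.2
  refine ⟨⟨⟨fun i => p i.val, ?_⟩, ?_⟩⟩
  · intro a b hab
    rw [cycleGraph_adj] at hab
    rcases hab with h | h
    · exact (hadj _ _ h).symm
    · exact hadj _ _ h
  · intro a b hab
    change p a.val = p b.val at hab
    rcases lt_trichotomy a.val b.val with h | h | h
    · exact absurd hab (hp.1.1 _ _ h b.isLt)
    · exact Fin.ext h
    · exact absurd hab.symm (hp.1.1 _ _ h a.isLt)

theorem upper {m n N : ℕ} (h3 : 3 ≤ m) (hmn : m ≤ n + 1) (hNn : N = 2 * n - 1)
    (T : SimpleGraph (Fin n)) (hT : T.IsTree) (R : SimpleGraph (Fin N)) :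
    T ⊑ R ∨ cycleGraph m ⊑ Rᶜ := by
  by_cases hTR : T ⊑ R
  · exact Or.inl hTR
  right
  -- few red edges
  have hes : 2 * R.edgeFinset.card ≤ (n - 2) * N := by
    by_contra hcon
    push Not at hcon
    obtain ⟨f, hf⟩ := ES903.erdos_sos R (n - 1) (by
      rw [Fintype.card_fin]
      have : n - 1 - 1 = n - 2 := by omega
      rw [this]; convert hcon) T hT (by rw [Fintype.card_fin]; omega)
    exact hTR ⟨⟨⟨f, fun {a b} h => hf a b h⟩, f.injective⟩⟩
  have hsum : ∑ x, (nb R x).card = 2 * R.edgeFinset.card := by
    rw [← R.sum_degrees_eq_twice_card_edges]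
    apply sum_congr rfl
    intro x _
    rw [← R.card_neighborFinset_eq_degree]
    congr 1
    ext y
    rw [mem_nb, mem_neighborFinset]
  have hpt : ∀ x, (nb Rᶜ x).card + (nb R x).card = N - 1 := by
    intro x
    have hd : Disjoint (nb Rᶜ x) (nb R x) := by
      rw [Finset.disjoint_left]
      intro y hy hy'
      rw [mem_nb, compl_adj] at hy
      rw [mem_nb] at hy'
      exact hy.2 hy'
    rw [← card_union_of_disjoint hd]
    have : nb Rᶜ x ∪ nb R x = univ.erase x := by
      ext y
      rw [mem_union, mem_nb, mem_nb, compl_adj, mem_erase]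
      constructor
      · rintro (h | h)
        · exact ⟨h.1.symm, mem_univ _⟩
        · exact ⟨h.ne', mem_univ _⟩
      · rintro ⟨h, -⟩
        by_cases h' : R.Adj x y
        · exact Or.inr h'
        · exact Or.inl ⟨h.symm, h'⟩
    rw [this, card_erase_of_mem (mem_univ _), card_univ, Fintype.card_fin]
  have hD : n * N ≤ D Rᶜ := by
    have h1 : D Rᶜ + ∑ x, (nb R x).card = N * (N - 1) := by
      unfold D
      rw [← sum_add_distrib, sum_congr rfl (fun x _ => hpt x), sum_const, card_univ,
        Fintype.card_fin, smul_eq_mul]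
    rw [hsum] at h1
    generalize D Rᶜ = D0 at h1 ⊢
    generalize R.edgeFinset.card = E0 at h1 hes
    obtain ⟨k, rfl⟩ : ∃ k, n = k + 2 := ⟨n - 2, by omega⟩
    have e1 : N = 2 * k + 3 := by omega
    subst e1
    have e2 : k + 2 - 2 = k := by omega
    have e3 : 2 * k + 3 - 1 = 2 * k + 2 := by omega
    rw [e2] at hes
    rw [e3] at h1
    nlinarith
  have hDU : DU Rᶜ univ = D Rᶜ := by
    unfold DU D
    simp
  -- a long blue cycle
  have hNbd : ∀ L p, CycF Rᶜ L p → L ≤ N := by
    intro L p hp
    have := path_card (K := univ) hp.1 (fun _ _ => mem_univ _)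
    rwa [card_univ, Fintype.card_fin] at this
  obtain ⟨L, p, hp, hL⟩ : ∃ L p, CycF Rᶜ L p ∧ n < L := by
    by_contra hcon
    push Not at hcon
    have := EG (c := n) (by omega) N univ Rᶜ (by rw [card_univ, Fintype.card_fin])
      ⟨⟨0, by omega⟩, mem_univ _⟩ (fun _ _ _ => mem_univ _) hcon
    rw [card_univ, Fintype.card_fin] at this
    have h4 : n * (N - 1) < n * N := by
      apply Nat.mul_lt_mul_of_pos_left <;> omega
    omega
  obtain ⟨c, q, hq, -, hLc, hcmax⟩ := exists_longest hNbd hp
  have hper := hq.per (by omega)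
  have hw := weak hper hcmax (by rw [Fintype.card_fin]; omega) (by
    rw [Fintype.card_fin, hDU]
    have h5 : N * N < 2 * (n * N) := by
      have : N < 2 * n := by omega
      have hpos : 0 < N := by omega
      nlinarith
    rw [sq]
    omega)
  obtain ⟨g, hg⟩ := pancyclic hper hw h3 (by omega)
  exact contained_of_cyc h3 hg

/-- For every odd `m ≥ 3`, every `n ≥ m - 1` and every tree `T` on `n` vertices the Ramsey number
of `T` and the cycle `C_m` is `2n - 1`: it is the least positive `N` such that for every red graph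
`R` on `N` vertices either `R` contains `T` or the complement of `R` contains `C_m`. -/
theorem result (m n : ℕ) (hm : Odd m) (h3 : 3 ≤ m) (hmn : m ≤ n + 1) (T : SimpleGraph (Fin n))
    (hT : T.IsTree) :
    IsLeast {N : ℕ | 0 < N ∧ ∀ R : SimpleGraph (Fin N), T ⊑ R ∨ cycleGraph m ⊑ Rᶜ}
      (2 * n - 1) := by
  refine ⟨⟨by omega, upper h3 hmn rfl T hT⟩, ?_⟩
  rintro N ⟨hN, hR⟩
  by_contra hcon
  push Not at hcon
  obtain ⟨h1, h2⟩ := lower hm h3 (N := N) (by omega) T hT
  rcases hR (two n N) with h | h
  · exact h1 h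
  · exact h2 h

end Pool.Agent.Results.MP_0e31aa_co.TreeOddCycle
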